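import Pool.Agent.H83.UE.Targets4
import Pool.Agent.H83.UDA.All

/-!
MP_75a732_an, board udb_modules, row DMB: the dimension of a generic algebraic set.
-/

set_option autoImplicit false

open Polynomial MeasureTheory Filter Topology Set
open scoped OnePoint ComplexConjugate ComplexOrder Laplacian ENNReal Nat

namespace Pool.Agent.H35.UDB

open Pool.Agent.H83.UE

theorem pol_snoc {k : ℕ} (w : Fin k → ℂ) :
    pol (Fin.snoc w 1 : Fin (k + 1) → ℂ) = mon w := by
  unfold pol mon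
  rw [Fin.sum_univ_castSucc, Fin.snoc_last, Fin.val_last, C_1, one_mul, add_comm]
  congr 1
  refine Finset.sum_congr rfl fun i _ => ?_
  rw [Fin.snoc_castSucc]
  rfl

theorem pf_DMB (h1 : T_LIN) (h2 : T_ELI) : T_DMB := by
  intro k m hmk 𝓕 hF hΛ B hB
  obtain ⟨Λ, hfin, hΛ0⟩ := hΛ
  obtain ⟨L, hL1, hL⟩ := h1.1 (k + 1) Λ
  obtain ⟨h, h0, hv, hz⟩ := h2 k (k + 1 - Module.finrank ℂ Λ) 𝓕 hF L hL1
    (fun a ha hi => hΛ0 a ((hL a).2 hi) ha) B (by rw [hfin, hB]; omega)
  refine ⟨h, h0, hv, fun z hcz => ?_⟩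
  refine hz (Fin.snoc (coef z) 1) ?_ hcz z fun l _ => ?_
  · intro h3
    have h4 := congrFun h3 (Fin.last k)
    rw [Fin.snoc_last] at h4
    exact one_ne_zero h4
  · rw [pol_snoc, ((Pool.Agent.H83.UDA.All.t_MON k).2.1 z).1, eval_prod]
    refine Finset.prod_eq_zero (Finset.mem_univ l) ?_
    rw [eval_sub, eval_X, eval_C, sub_self]

end Pool.Agent.H35.UDB
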