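import Pool.Agent.H35.UDB.OFEa

/-!
MP_75a732_an, board udb_modules, row OFE: off-diagonal terms for products.
-/

set_option autoImplicit false

open Polynomial MeasureTheory Filter Topology Set
open scoped OnePoint ComplexConjugate ComplexOrder Laplacian ENNReal

namespace Pool.Agent.H35.UDB

open Pool.Agent.H83.UE Pool.Agent.H47.UDA

theorem supp_radius {k : ℕ} (u : Fin k → ℂ → ℂ) (huc : ∀ l, HasCompactSupport (u l)) :
    ∃ R : ℝ, ∀ l x, R ≤ ‖x‖ → u l x = 0 := by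
  have h : ∀ l, ∃ r : ℝ, ∀ x, r ≤ ‖x‖ → u l x = 0 := by
    intro l
    obtain ⟨r, hr⟩ := (huc l).isCompact.isBounded.subset_closedBall 0
    refine ⟨r + 1, fun x hx => ?_⟩
    refine image_eq_zero_of_notMem_tsupport fun hmem => ?_
    have h1 := hr hmem
    rw [mem_closedBall_zero_iff] at h1
    linarith
  choose r hr using h
  refine ⟨∑ l, |r l|, fun l x hx => hr l x ?_⟩
  refine (le_abs_self (r l)).trans (le_trans ?_ hx)
  exact Finset.single_le_sum (f := fun l => |r l|) (fun i _ => abs_nonneg _) (Finset.mem_univ l)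

theorem ofReal_nat_pow (d n : ℕ) : ENNReal.ofReal ((d : ℝ) ^ n) = (d : ℝ≥0∞) ^ n := by
  rw [ENNReal.ofReal_pow (by positivity), ENNReal.ofReal_natCast]

theorem lint_cover {α ι : Type} [Fintype ι] [MeasurableSpace α] (μ : Measure α)
    (f : α → ℝ≥0∞) (Ω : ι → Set α) (hc : ∀ z, ∃ i, z ∈ Ω i) (V : ℝ≥0∞)
    (h : ∀ i, ∫⁻ z in Ω i, f z ∂μ ≤ V) : ∫⁻ z, f z ∂μ ≤ Fintype.card ι * V := by
  have h1 : (⋃ i, Ω i) = univ := by
    refine eq_univ_of_forall fun z => ?_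
    rw [mem_iUnion]
    exact hc z
  have h2 := lintegral_iUnion_le (μ := μ) Ω f
  rw [h1, Measure.restrict_univ, tsum_fintype] at h2
  refine h2.trans ((Finset.sum_le_sum fun i _ => h i).trans (le_of_eq ?_))
  rw [Finset.sum_const, Finset.card_univ, nsmul_eq_mul]

theorem pf_OFE (h1 : T_IT) (h2 : T_CON) (h3 : T_MAR) (h4 : T_FP) (h5 : T_BBE) (h6 : T_MEA)
    (h7 : T_KEY) (h8 : T_PIG) (h9 : T_CSG) : T_OFE := by
  classical
  intro k m d hd hmk g E κ hg u hu huc S hS I J hIJ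
  have hd1 : 1 ≤ d := by omega
  have hum : ∀ l, Measurable (u l) := fun l => (hu l).continuous.measurable
  -- the constants
  have hM : ∀ l, ∃ M : ℝ, 0 ≤ M ∧ ∀ x, ‖u l x‖ ≤ M := by
    intro l
    obtain ⟨M, hM⟩ := (hu l).continuous.bounded_above_of_compact_support (huc l)
    exact ⟨M, (norm_nonneg _).trans (hM 0), hM⟩
  choose M hM0 hM using hM
  have hU : ∀ l, ∃ U : ℝ, 0 ≤ U ∧ ∫⁻ x, ‖u l x‖ₑ ≤ ENNReal.ofReal U := by
    intro l
    have hi : Integrable (u l) := (hu l).continuous.integrable_of_hasCompactSupport (huc l)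
    refine ⟨(∫⁻ x, ‖u l x‖ₑ).toReal, ENNReal.toReal_nonneg, ?_⟩
    rw [ENNReal.ofReal_toReal hi.2.ne]
  choose U hU0 hU using hU
  have hU2 : ∀ l, ∃ U : ℝ, 0 ≤ U ∧ ∫⁻ x, ‖u l x‖ₑ ^ 2 ≤ ENNReal.ofReal U := by
    intro l
    have hcs : HasCompactSupport fun x => u l x ^ 2 :=
      (huc l).comp_left (g := fun y : ℂ => y ^ 2) (by simp)
    have hi : Integrable fun x => u l x ^ 2 :=
      ((hu l).continuous.pow 2).integrable_of_hasCompactSupport hcs
    refine ⟨(∫⁻ x, ‖u l x‖ₑ ^ 2).toReal, ENNReal.toReal_nonneg, ?_⟩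
    have hfin : ∫⁻ x, ‖u l x‖ₑ ^ 2 < ⊤ := by
      refine lt_of_eq_of_lt (lintegral_congr fun x => ?_) hi.2
      rw [enorm_pow]
    rw [ENNReal.ofReal_toReal hfin.ne]
  choose U2 hU20 hU2 using hU2
  have hC1 : ∀ l, ∃ C : ℝ, 0 ≤ C ∧ ∀ ε : ℝ, 0 < ε → ε ≤ 1 → ∃ n₀ : ℕ, ∀ n, n₀ ≤ n →
      ∫⁻ z in {z | Real.exp (-(ε * (d : ℝ) ^ n)) ≤ om (E l) z},
        ‖(((g l).fib n z).roots.map fun x => u l x / (g l).der n x).sum‖ₑ ^ 2 ≤
          ENNReal.ofReal (C * Real.sqrt ε * (d : ℝ) ^ n) :=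
    fun l => h5 d hd (g l) (E l) κ (hg l) (u l) (hu l) (huc l)
  choose C1 hC10 hC1 using hC1
  have hC2 : ∀ l, ∃ C : ℝ, 0 ≤ C ∧ ∀ ε : ℝ, 0 < ε → ε ≤ 1 → ∃ n₀ : ℕ, ∀ n, n₀ ≤ n →
      ∫⁻ z in {z | Real.exp (-(ε * (d : ℝ) ^ n)) ≤ om (E l) z},
        ‖(((g l).fib n z).roots.map fun x => conj (u l x) / (g l).der n x).sum‖ₑ ^ 2 ≤
          ENNReal.ofReal (C * Real.sqrt ε * (d : ℝ) ^ n) := fun l => by
    refine h5 d hd (g l) (E l) κ (hg l) (fun x => conj (u l x)) ?_ ?_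
    · exact Complex.conjCLE.contDiff.comp (hu l)
    · exact (huc l).comp_left (g := fun x => conj x) (map_zero _)
  choose C2 hC20 hC2 using hC2
  obtain ⟨R, hR⟩ := supp_radius u huc
  obtain ⟨s₀, hs₀⟩ : ∃ s₀ : ℝ, s₀ = 1 + ∑ l, M l := ⟨_, rfl⟩
  have hs1 : 1 ≤ s₀ := by
    rw [hs₀]
    have : 0 ≤ ∑ l, M l := Finset.sum_nonneg fun l _ => hM0 l
    linarith
  have hsM : ∀ l x, ‖u l x‖ₑ ≤ ENNReal.ofReal s₀ := by
    intro l x
    rw [← ofReal_norm]
    refine ENNReal.ofReal_le_ofReal ((hM l x).trans ?_)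
    have := Finset.single_le_sum (f := M) (fun i _ => hM0 i) (Finset.mem_univ l)
    rw [hs₀]
    linarith
  have hC3 : ∀ A : Finset (Fin k), ∃ C : ℝ, 0 ≤ C ∧ (¬ A ⊆ I.1 →
      ∀ c η : ℝ, 0 < c → 0 < η → ∃ n₀ : ℕ, ∀ n, n₀ ≤ n →
      ∀ ρ : Fin k → ℂ → ℝ≥0∞, (∀ l, Measurable (ρ l)) →
      (∀ l x, ρ l x ≤ ENNReal.ofReal (s₀ ^ 2)) → (∀ l x, R ≤ ‖x‖ → ρ l x = 0) →
      ∫⁻ z in Zone E A (c * (d : ℝ) ^ n) (η * (c * (d : ℝ) ^ n)),
        (∏ l ∈ I.1, nfac (g l) n True True (ρ l) (z l)) *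
          ENNReal.ofReal (S.h z I I).re ∂S.σ ≤ ENNReal.ofReal (C * η)) := by
    intro A
    by_cases hA : A ⊆ I.1
    · exact ⟨0, le_rfl, fun h => absurd hA h⟩
    · obtain ⟨C, hC, h⟩ := h7 k m d hd g E κ hg S hS A I hA R (s₀ ^ 2)
      exact ⟨C, hC, fun _ => h⟩
  choose C3 hC30 hC3 using hC3
  obtain ⟨T, hT⟩ : ∃ T : ℝ, T = 1 + ∑ l, (M l + U l + U2 l + C1 l + C2 l) + ∑ A, C3 A +
    (S.c I + S.c J) := ⟨_, rfl⟩
  have hsum0 : 0 ≤ ∑ l, (M l + U l + U2 l + C1 l + C2 l) := Finset.sum_nonneg fun i _ =>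
    add_nonneg (add_nonneg (add_nonneg (add_nonneg (hM0 i) (hU0 i)) (hU20 i)) (hC10 i)) (hC20 i)
  have hsum1 : 0 ≤ ∑ A, C3 A := Finset.sum_nonneg fun i _ => hC30 i
  have hcI : (0 : ℝ) ≤ S.c I := NNReal.coe_nonneg _
  have hcJ : (0 : ℝ) ≤ S.c J := NNReal.coe_nonneg _
  have hTl : ∀ l, M l + U l + U2 l + C1 l + C2 l ≤ T := by
    intro l
    have := Finset.single_le_sum (f := fun l => M l + U l + U2 l + C1 l + C2 l)
      (fun i _ => add_nonneg (add_nonneg (add_nonneg (add_nonneg (hM0 i) (hU0 i)) (hU20 i))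
        (hC10 i)) (hC20 i)) (Finset.mem_univ l)
    rw [hT]
    linarith
  have hTA : ∀ A, C3 A ≤ T := by
    intro A
    have := Finset.single_le_sum (f := C3) (fun i _ => hC30 i) (Finset.mem_univ A)
    rw [hT]
    linarith
  have hT1 : 1 ≤ T := by
    rw [hT]
    linarith
  have hT0 : 0 ≤ T := by linarith
  obtain ⟨τ, hτ⟩ : ∃ τ : ℝ≥0∞, τ = ENNReal.ofReal T := ⟨_, rfl⟩
  have hτ1 : 1 ≤ τ := by
    rw [hτ, ← ENNReal.ofReal_one]
    exact ENNReal.ofReal_le_ofReal hT1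
  have hτI : (S.c I : ℝ≥0∞) ≤ τ := by
    rw [hτ, ← ENNReal.ofReal_coe_nnreal]
    refine ENNReal.ofReal_le_ofReal ?_
    rw [hT]
    linarith
  have hτJ : (S.c J : ℝ≥0∞) ≤ τ := by
    rw [hτ, ← ENNReal.ofReal_coe_nnreal]
    refine ENNReal.ofReal_le_ofReal ?_
    rw [hT]
    linarith
  -- sizes
  obtain ⟨r, hr⟩ : ∃ r, r = (I.1 \ J.1).card := ⟨_, rfl⟩
  obtain ⟨s, hs⟩ : ∃ s, s = (I.1 ∩ J.1).card := ⟨_, rfl⟩
  obtain ⟨a, ha⟩ : ∃ a, a = ((I.1 ∪ J.1)ᶜ : Finset (Fin k)).card := ⟨_, rfl⟩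
  have hIm := I.2
  have hJm := J.2
  have hrs : r + s = m := by
    rw [hr, hs]
    exact (Finset.card_sdiff_add_card_inter I.1 J.1).trans hIm
  have hrs' : (J.1 \ I.1).card + s = m := by
    rw [hs, Finset.inter_comm]
    exact (Finset.card_sdiff_add_card_inter J.1 I.1).trans hJm
  have hr2 : (J.1 \ I.1).card = r := by omega
  have hs2 : (J.1 ∩ I.1).card = s := by rw [hs, Finset.inter_comm]
  have hr1 : 1 ≤ r := by
    rw [hr]
    refine Finset.card_pos.2 (Finset.nonempty_iff_ne_empty.2 fun h => hIJ ?_)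
    have hsub : I.1 ⊆ J.1 := Finset.sdiff_eq_empty_iff_subset.1 h
    exact Subtype.ext (Finset.eq_of_subset_of_card_le hsub (by rw [hIm, hJm]))
  have hun : (I.1 ∪ J.1).card = m + r := by
    have := Finset.card_union_add_card_inter I.1 J.1
    rw [← hs] at this
    omega
  have hak : a + (m + r) = k := by
    have := Finset.card_compl_add_card (I.1 ∪ J.1)
    rw [Fintype.card_fin, hun] at this
    rw [ha]
    exact this
  have hJI : (J.1 \ I.1).Nonempty := Finset.card_pos.1 (by omega)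
  -- the factors
  obtain ⟨A, hA⟩ : ∃ A : ℕ → Fin k → ℂ → ℝ≥0∞,
      A = fun n l x => ‖fac (g l) n (l ∈ I.1) (l ∈ J.1) (u l) x‖ₑ := ⟨_, rfl⟩
  have hAe : ∀ n l x, A n l x = ‖fac (g l) n (l ∈ I.1) (l ∈ J.1) (u l) x‖ₑ := by
    intro n l x
    rw [hA]
  have hAm : ∀ n l, Measurable (A n l) := by
    intro n l
    rw [hA]
    exact (fac_meas h1 h6 hd1 (g l) n _ _ (u l) (hum l)).enorm
  have hAout : ∀ n l x, l ∉ I.1 → l ∉ J.1 → A n l x ≤ (d : ℝ≥0∞) ^ n * τ := by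
    intro n l x hlI hlJ
    rw [hAe]
    refine fac_out h1 hd1 (g l) n _ _ hlI hlJ (u l) τ (fun y => ?_) x
    rw [← ofReal_norm, hτ]
    refine ENNReal.ofReal_le_ofReal ((hM l y).trans ?_)
    have := hTl l
    have := hU0 l
    have := hU20 l
    have := hC10 l
    have := hC20 l
    linarith
  have hAin : ∀ n l, l ∈ I.1 → l ∈ J.1 → ∫⁻ x, A n l x ≤ τ := by
    intro n l hlI hlJ
    rw [lintegral_congr (hAe n l)]
    refine (fac_in h1 h2 hd1 (g l) n _ _ hlI hlJ (u l) (hum l)).trans ((hU l).trans ?_)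
    rw [hτ]
    refine ENNReal.ofReal_le_ofReal ?_
    have := hTl l
    have := hM0 l
    have := hU20 l
    have := hC10 l
    have := hC20 l
    linarith
  have hAsy : ∀ n l, ((l ∈ I.1 ∧ l ∉ J.1) ∨ (l ∈ J.1 ∧ l ∉ I.1)) →
      ∫⁻ x, A n l x ^ 2 ≤ (d : ℝ≥0∞) ^ n * τ := by
    intro n l hl
    rw [lintegral_congr fun x => by rw [hAe n l x]]
    refine (fac_sq_int h1 h2 hd1 (g l) n _ _ hl (u l) (hum l)).trans
      (mul_le_mul' le_rfl ((hU2 l).trans ?_))
    rw [hτ]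
    refine ENNReal.ofReal_le_ofReal ?_
    have := hTl l
    have := hM0 l
    have := hU0 l
    have := hC10 l
    have := hC20 l
    linarith
  -- the main estimate
  obtain ⟨N, hN⟩ : ∃ N : ℕ, N = Fintype.card (Fin k ⊕ Fin (k + 1) × Finset (Fin k)) := ⟨_, rfl⟩
  have main : ∀ t : ℝ, 0 < t → t < 1 → ∀ᶠ n : ℕ in atTop,
      ∫⁻ z, (∏ l, A n l (z l)) * ‖S.h z I J‖ₑ ∂S.σ ≤
        N * (((d : ℝ≥0∞) ^ n * τ) ^ a *
          (τ ^ (1 + s + r) * ((d : ℝ≥0∞) ^ n) ^ r * ENNReal.ofReal t)) := by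
    intro t ht0 ht1
    obtain ⟨ε, hε⟩ : ∃ ε : ℝ, ε = t ^ 4 := ⟨_, rfl⟩
    have hε0 : 0 < ε := by rw [hε]; positivity
    have hε1 : ε < 1 := by
      rw [hε]
      exact pow_lt_one₀ ht0.le ht1 (by norm_num)
    have hsq : Real.sqrt ε = t ^ 2 := by
      rw [hε, show t ^ 4 = (t ^ 2) ^ 2 by ring, Real.sqrt_sq (by positivity)]
    have hεt : ε ≤ t ^ 2 := by
      rw [hε, show t ^ 4 = t ^ 2 * t ^ 2 by ring]
      have : t ^ 2 ≤ 1 := pow_le_one₀ ht0.le ht1.le
      nlinarith [sq_nonneg t]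
    have ev1 : ∀ᶠ n : ℕ in atTop, ∀ l,
        ∫⁻ z in {z | Real.exp (-(ε * (d : ℝ) ^ n)) ≤ om (E l) z},
          ‖(((g l).fib n z).roots.map fun x => u l x / (g l).der n x).sum‖ₑ ^ 2 ≤
            ENNReal.ofReal (C1 l * Real.sqrt ε * (d : ℝ) ^ n) := by
      rw [eventually_all]
      intro l
      obtain ⟨n₀, hn₀⟩ := hC1 l ε hε0 hε1.le
      exact eventually_atTop.2 ⟨n₀, hn₀⟩
    have ev2 : ∀ᶠ n : ℕ in atTop, ∀ l,
        ∫⁻ z in {z | Real.exp (-(ε * (d : ℝ) ^ n)) ≤ om (E l) z},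
          ‖(((g l).fib n z).roots.map fun x => conj (u l x) / (g l).der n x).sum‖ₑ ^ 2 ≤
            ENNReal.ofReal (C2 l * Real.sqrt ε * (d : ℝ) ^ n) := by
      rw [eventually_all]
      intro l
      obtain ⟨n₀, hn₀⟩ := hC2 l ε hε0 hε1.le
      exact eventually_atTop.2 ⟨n₀, hn₀⟩
    have ev3 : ∀ᶠ n : ℕ in atTop, ∀ p : Fin (k + 1) × Finset (Fin k), ¬ p.2 ⊆ I.1 →
        ∀ ρ : Fin k → ℂ → ℝ≥0∞, (∀ l, Measurable (ρ l)) →
        (∀ l x, ρ l x ≤ ENNReal.ofReal (s₀ ^ 2)) → (∀ l x, R ≤ ‖x‖ → ρ l x = 0) →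
        ∫⁻ z in Zone E p.2 (ε * ε ^ (p.1 : ℕ) * (d : ℝ) ^ n)
            (ε * (ε * ε ^ (p.1 : ℕ) * (d : ℝ) ^ n)),
          (∏ l ∈ I.1, nfac (g l) n True True (ρ l) (z l)) *
            ENNReal.ofReal (S.h z I I).re ∂S.σ ≤ ENNReal.ofReal (C3 p.2 * ε) := by
      rw [eventually_all]
      intro p
      by_cases hp : p.2 ⊆ I.1
      · exact Eventually.of_forall fun n h => absurd hp h
      · obtain ⟨n₀, hn₀⟩ := hC3 p.2 hp (ε * ε ^ (p.1 : ℕ)) ε (by positivity) hε0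
        exact eventually_atTop.2 ⟨n₀, fun n hn _ => hn₀ n hn⟩
    filter_upwards [ev1, ev2, ev3] with n hn1 hn2 hn3
    obtain ⟨D, hD⟩ : ∃ D : ℝ≥0∞, D = (d : ℝ≥0∞) ^ n := ⟨_, rfl⟩
    have hDtop : D ≠ ⊤ := by
      rw [hD]
      exact ENNReal.pow_ne_top (ENNReal.natCast_ne_top d)
    obtain ⟨V, hV⟩ : ∃ V : ℝ≥0∞, V = τ ^ (1 + s + r) * D ^ r := ⟨_, rfl⟩
    rw [← hD, ← hV]
    -- full bounds
    have hfI : ∀ Ω : Set (Fin k → ℂ), MeasurableSet Ω → Fq S I J (A n) Ω ≤ V := by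
      intro Ω hΩ
      have h := Fq_full h3 S I J (A n) Ω hΩ (hAm n) τ D hτI
        (fun l hl => hAin n l (Finset.mem_inter.1 hl).1 (Finset.mem_inter.1 hl).2)
        (fun l hl => by
          rw [hD]
          exact hAsy n l (Or.inl (Finset.mem_sdiff.1 hl)))
      rwa [← hr, ← hs, ← hV] at h
    have hfJ : ∀ Ω : Set (Fin k → ℂ), MeasurableSet Ω → Fq S J I (A n) Ω ≤ V := by
      intro Ω hΩ
      have h := Fq_full h3 S J I (A n) Ω hΩ (hAm n) τ D hτJ
        (fun l hl => hAin n l (Finset.mem_inter.1 hl).2 (Finset.mem_inter.1 hl).1)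
        (fun l hl => by
          rw [hD]
          exact hAsy n l (Or.inr (Finset.mem_sdiff.1 hl)))
      rwa [hr2, hs2, ← hV] at h
    have hb : ∀ l x, l ∉ I.1 → l ∉ J.1 → A n l x ≤ D * τ := by
      intro l x h h'
      rw [hD]
      exact hAout n l x h h'
    -- the sets in one variable
    have hWm : ∀ l, MeasurableSet {x | Real.exp (-(ε * (d : ℝ) ^ n)) ≤ om (E l) x} := fun l =>
      measurableSet_le measurable_const (meas_om (E l))
    have hcst : ∀ C : ℝ, 0 ≤ C → C ≤ T →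
        ENNReal.ofReal (C * Real.sqrt ε * (d : ℝ) ^ n) ≤ D * τ * ENNReal.ofReal (t ^ 2) := by
      intro C hC hCT
      have e : D * τ * ENNReal.ofReal (t ^ 2) = ENNReal.ofReal (T * t ^ 2 * (d : ℝ) ^ n) := by
        rw [ENNReal.ofReal_mul (by positivity), ENNReal.ofReal_mul hT0, ofReal_nat_pow, ← hD,
          ← hτ]
        ring
      rw [e, hsq]
      refine ENNReal.ofReal_le_ofReal ?_
      have : 0 ≤ t ^ 2 * (d : ℝ) ^ n := by positivity
      nlinarith
    have hOne : ∀ l ∈ symmDiff I.1 J.1,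
        ∫⁻ z in {z : Fin k → ℂ | z l ∈ {x | Real.exp (-(ε * (d : ℝ) ^ n)) ≤ om (E l) x}},
          (∏ l, A n l (z l)) * ‖S.h z I J‖ₑ ∂S.σ ≤
            (D * τ) ^ a * (V * ENNReal.ofReal t) := by
      intro l hl
      have hm : MeasurableSet {z : Fin k → ℂ | z l ∈
          {x | Real.exp (-(ε * (d : ℝ) ^ n)) ≤ om (E l) x}} := measurable_pi_apply l (hWm l)
      rw [ha]
      refine region h9 S I J (A n) (hAm n) (D * τ) hb _ hm V t ht0.le ?_
      have h7 := hTl l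
      have h8 := hM0 l
      have h9' := hU0 l
      have h9'' := hU20 l
      have h10 := hC10 l
      have h11 := hC20 l
      rcases Finset.mem_symmDiff.1 hl with hl' | hl'
      · left
        refine ⟨?_, hfJ _ hm⟩
        have h := Fq_one h3 S I J (A n) l (Finset.mem_sdiff.2 hl') _ (hWm l) (hAm n) τ D
          (ENNReal.ofReal (t ^ 2)) hτI
          (fun l hl => hAin n l (Finset.mem_inter.1 hl).1 (Finset.mem_inter.1 hl).2)
          (fun l hl => by
            rw [hD]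
            exact hAsy n l (Or.inl (Finset.mem_sdiff.1 hl)))
          (le_trans (le_of_eq (lintegral_congr fun z => by
            rw [hAe n l z, fac_left (g l) n _ _ hl'.1 hl'.2])) ((hn1 l).trans
              (hcst _ h10 (by linarith))))
        rwa [← hr, ← hs, ← hV] at h
      · right
        refine ⟨hfI _ hm, ?_⟩
        have h := Fq_one h3 S J I (A n) l (Finset.mem_sdiff.2 hl') _ (hWm l) (hAm n) τ D
          (ENNReal.ofReal (t ^ 2)) hτJ
          (fun l hl => hAin n l (Finset.mem_inter.1 hl).2 (Finset.mem_inter.1 hl).1)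
          (fun l hl => by
            rw [hD]
            exact hAsy n l (Or.inr (Finset.mem_sdiff.1 hl)))
          (le_trans (le_of_eq (lintegral_congr fun z => by
            rw [hAe n l z, fac_right (g l) n _ _ hl'.2 hl'.1]
            congr 1
            simp [enorm, nnnorm])) ((hn2 l).trans (hcst _ h11 (by linarith))))
        rwa [hr2, hs2, ← hV] at h
    -- the zones
    have hZone : ∀ p : Fin (k + 1) × Finset (Fin k), symmDiff I.1 J.1 ⊆ p.2 →
        ∫⁻ z in Zone E p.2 (ε * ε ^ (p.1 : ℕ) * (d : ℝ) ^ n)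
            (ε * (ε * ε ^ (p.1 : ℕ) * (d : ℝ) ^ n)),
          (∏ l, A n l (z l)) * ‖S.h z I J‖ₑ ∂S.σ ≤
            (D * τ) ^ a * (V * ENNReal.ofReal t) := by
      intro p hp
      have hm := meas_zone E p.2 (ε * ε ^ (p.1 : ℕ) * (d : ℝ) ^ n)
        (ε * (ε * ε ^ (p.1 : ℕ) * (d : ℝ) ^ n))
      rw [ha]
      refine region h9 S I J (A n) (hAm n) (D * τ) hb _ hm V t ht0.le (Or.inl ⟨?_, hfJ _ hm⟩)
      have hpI : ¬ p.2 ⊆ I.1 := by
        intro hsub
        obtain ⟨l, hl⟩ := hJI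
        rw [Finset.mem_sdiff] at hl
        exact hl.2 (hsub (hp (Finset.mem_symmDiff.2 (Or.inr hl))))
      obtain ⟨ρ, hρ⟩ : ∃ ρ : Fin k → ℂ → ℝ≥0∞,
        ρ = fun l x => if l ∈ J.1 then ‖u l x‖ₑ else ‖u l x‖ₑ ^ 2 := ⟨_, rfl⟩
      have hρ1 : ∀ l, l ∈ J.1 → ρ l = fun x => ‖u l x‖ₑ := by
        intro l hl
        rw [hρ]
        funext x
        exact if_pos hl
      have hρ2 : ∀ l, l ∉ J.1 → ρ l = fun x => ‖u l x‖ₑ ^ 2 := by
        intro l hl
        rw [hρ]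
        funext x
        exact if_neg hl
      have hkey := hn3 p hpI ρ
        (fun l => by
          by_cases hl : l ∈ J.1
          · rw [hρ1 l hl]
            exact (hum l).enorm
          · rw [hρ2 l hl]
            exact (hum l).enorm.pow_const 2)
        (fun l x => by
          by_cases hl : l ∈ J.1
          · rw [hρ1 l hl]
            refine (hsM l x).trans (ENNReal.ofReal_le_ofReal ?_)
            nlinarith
          · rw [hρ2 l hl]
            refine (pow_le_pow_left' (hsM l x) 2).trans (le_of_eq ?_)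
            rw [ENNReal.ofReal_pow (by linarith)])
        (fun l x hx => by
          by_cases hl : l ∈ J.1
          · rw [hρ1 l hl]
            show ‖u l x‖ₑ = 0
            rw [hR l x hx, enorm_zero]
          · rw [hρ2 l hl]
            show ‖u l x‖ₑ ^ 2 = 0
            rw [hR l x hx, enorm_zero]
            simp)
      have hpt : ∀ z : Fin k → ℂ, ((∏ l ∈ I.1 ∩ J.1, A n l (z l)) *
          ∏ l ∈ I.1 \ J.1, A n l (z l) ^ 2) ≤
          D ^ r * ∏ l ∈ I.1, nfac (g l) n True True (ρ l) (z l) := by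
        intro z
        have e1 : ∏ l ∈ I.1 ∩ J.1, A n l (z l) ≤
            ∏ l ∈ I.1 ∩ J.1, nfac (g l) n True True (ρ l) (z l) := by
          refine Finset.prod_le_prod' fun l hl => ?_
          rw [Finset.mem_inter] at hl
          rw [hAe, hρ1 l hl.2]
          exact fac_one (g l) n _ _ hl.1 hl.2 (u l) (z l)
        have e2 : ∏ l ∈ I.1 \ J.1, A n l (z l) ^ 2 ≤
            D ^ r * ∏ l ∈ I.1 \ J.1, nfac (g l) n True True (ρ l) (z l) := by
          rw [hr, ← Finset.prod_const, ← Finset.prod_mul_distrib]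
          refine Finset.prod_le_prod' fun l hl => ?_
          rw [Finset.mem_sdiff] at hl
          rw [hAe, hρ2 l hl.2, hD]
          exact fac_sq h1 hd1 (g l) n _ _ (Or.inl hl) (u l) (z l)
        refine (mul_le_mul' e1 e2).trans (le_of_eq ?_)
        rw [← Finset.prod_inter_mul_prod_sdiff I.1 J.1 fun l =>
          nfac (g l) n True True (ρ l) (z l)]
        ring
      have hF : Fq S I J (A n) (Zone E p.2 (ε * ε ^ (p.1 : ℕ) * (d : ℝ) ^ n)
            (ε * (ε * ε ^ (p.1 : ℕ) * (d : ℝ) ^ n))) ≤ D ^ r * ENNReal.ofReal (C3 p.2 * ε) := by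
        unfold Fq
        refine le_trans (lintegral_mono fun z => ?_) (le_trans (le_of_eq
          (lintegral_const_mul' (D ^ r) _ (ENNReal.pow_ne_top hDtop))) (mul_le_mul' le_rfl hkey))
        rw [← mul_assoc]
        exact mul_le_mul' (hpt z) le_rfl
      refine hF.trans ?_
      have e3 : ENNReal.ofReal (C3 p.2 * ε) ≤ τ ^ (1 + s + r) * ENNReal.ofReal (t ^ 2) := by
        calc ENNReal.ofReal (C3 p.2 * ε) ≤ ENNReal.ofReal (T * t ^ 2) := by
              refine ENNReal.ofReal_le_ofReal ?_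
              have := hTA p.2
              have := hC30 p.2
              nlinarith [sq_nonneg t]
          _ = τ ^ 1 * ENNReal.ofReal (t ^ 2) := by
              rw [ENNReal.ofReal_mul hT0, ← hτ, pow_one]
          _ ≤ _ := mul_le_mul' (pow_le_pow_right₀ hτ1 (by omega)) le_rfl
      refine (mul_le_mul' le_rfl e3).trans (le_of_eq ?_)
      rw [hV]
      ring
    -- the cover
    rw [hN]
    refine lint_cover S.σ _ (fun i : Fin k ⊕ Fin (k + 1) × Finset (Fin k) => Sum.elim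
      (fun l => if l ∈ symmDiff I.1 J.1 then
        {z : Fin k → ℂ | z l ∈ {x | Real.exp (-(ε * (d : ℝ) ^ n)) ≤ om (E l) x}} else ∅)
      (fun p => if symmDiff I.1 J.1 ⊆ p.2 then Zone E p.2 (ε * ε ^ (p.1 : ℕ) * (d : ℝ) ^ n)
            (ε * (ε * ε ^ (p.1 : ℕ) * (d : ℝ) ^ n)) else ∅) i) ?_ _ ?_
    · intro z
      have hdn : (0 : ℝ) < (d : ℝ) ^ n := by
        have : (0 : ℝ) < d := by exact_mod_cast hd1
        positivity
      obtain ⟨j, hj, A', hA'⟩ := h8 k E ((d : ℝ) ^ n) ε ε hdn hε0 hε0 hε1 z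
      by_cases hsub : symmDiff I.1 J.1 ⊆ A'
      · refine ⟨Sum.inr (⟨j, by omega⟩, A'), ?_⟩
        rw [Sum.elim_inr, if_pos hsub]
        exact hA'
      · rw [Finset.not_subset] at hsub
        obtain ⟨l, hl, hlA⟩ := hsub
        refine ⟨Sum.inl l, ?_⟩
        rw [Sum.elim_inl, if_pos hl]
        refine le_trans (Real.exp_le_exp.2 ?_) (hA'.2 l hlA)
        have h12 : ε ^ j ≤ 1 := pow_le_one₀ hε0.le hε1.le
        have h13 : ε * ε ^ j ≤ 1 := by nlinarith [pow_pos hε0 j]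
        have h14 : ε * (ε * ε ^ j * (d : ℝ) ^ n) ≤ ε * (d : ℝ) ^ n := by
          refine mul_le_mul_of_nonneg_left ?_ hε0.le
          nlinarith
        linarith
    · intro i
      rcases i with l | p
      · rw [Sum.elim_inl]
        by_cases hl : l ∈ symmDiff I.1 J.1
        · rw [if_pos hl]
          exact hOne l hl
        · rw [if_neg hl, Measure.restrict_empty, lintegral_zero_measure]
          exact bot_le
      · rw [Sum.elim_inr]
        by_cases hp : symmDiff I.1 J.1 ⊆ p.2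
        · rw [if_pos hp]
          exact hZone p hp
        · rw [if_neg hp, Measure.restrict_empty, lintegral_zero_measure]
          exact bot_le
  -- conclusion
  obtain ⟨B, hB⟩ : ∃ B : ℝ, B = N * T ^ (a + (1 + s + r)) := ⟨_, rfl⟩
  have hB0 : 0 ≤ B := by
    rw [hB]
    positivity
  have main2 : ∀ t : ℝ, 0 < t → t < 1 → ∀ᶠ n : ℕ in atTop,
      ‖pairing g n S I J (fun x => ∏ l, u l (x l))‖ ≤ B * t := by
    intro t ht0 ht1
    filter_upwards [main t ht0 ht1] with n hn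
    have hpair : ‖pairing g n S I J (fun x => ∏ l, u l (x l))‖ₑ ≤
        ENNReal.ofReal (((d : ℝ) ^ ((k - m) * n))⁻¹) *
          (N * (((d : ℝ≥0∞) ^ n * τ) ^ a *
          (τ ^ (1 + s + r) * ((d : ℝ≥0∞) ^ n) ^ r * ENNReal.ofReal t))) := by
      unfold pairing
      rw [enorm_mul]
      refine mul_le_mul' (le_of_eq ?_) ?_
      · rw [← ofReal_norm]
        congr 1
        rw [norm_inv, norm_pow, Complex.norm_natCast]
      · refine (enorm_integral_le_lintegral_enorm _).trans (le_trans (le_of_eq ?_) hn)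
        refine lintegral_congr fun z => ?_
        rw [enorm_mul, h4, enorm_prodC]
        congr 1
        exact Finset.prod_congr rfl fun l _ => (hAe n l (z l)).symm
    have hd0 : (0 : ℝ) < d := by exact_mod_cast hd1
    have hreal : ENNReal.ofReal (((d : ℝ) ^ ((k - m) * n))⁻¹) *
          (N * (((d : ℝ≥0∞) ^ n * τ) ^ a *
          (τ ^ (1 + s + r) * ((d : ℝ≥0∞) ^ n) ^ r * ENNReal.ofReal t))) =
        ENNReal.ofReal (((d : ℝ) ^ ((k - m) * n))⁻¹ * (N * (((d : ℝ) ^ n * T) ^ a *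
          (T ^ (1 + s + r) * ((d : ℝ) ^ n) ^ r * t)))) := by
      rw [ENNReal.ofReal_mul (by positivity), ENNReal.ofReal_mul (by positivity),
        ENNReal.ofReal_mul (by positivity), ENNReal.ofReal_mul (by positivity),
        ENNReal.ofReal_mul (by positivity), ENNReal.ofReal_pow (by positivity),
        ENNReal.ofReal_mul (by positivity), ENNReal.ofReal_pow hT0,
        ENNReal.ofReal_pow (by positivity) r, ofReal_nat_pow, ENNReal.ofReal_natCast, ← hτ]
    have hval : ((d : ℝ) ^ ((k - m) * n))⁻¹ * (N * (((d : ℝ) ^ n * T) ^ a *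
          (T ^ (1 + s + r) * ((d : ℝ) ^ n) ^ r * t))) = B * t := by
      have har : k - m = a + r := by omega
      rw [har, hB, mul_comm (a + r) n, pow_mul, pow_add ((d : ℝ) ^ n), mul_pow, pow_add T a (1 + s + r)]
      have : (d : ℝ) ^ n ≠ 0 := by positivity
      field_simp
    rw [hreal, hval, ← ofReal_norm] at hpair
    exact (ENNReal.ofReal_le_ofReal_iff (mul_nonneg hB0 ht0.le)).1 hpair
  rw [Metric.tendsto_nhds]
  intro δ hδ
  have hq : 0 < δ / (2 * (B + 1)) := by positivity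
  obtain ⟨t, ht⟩ : ∃ t : ℝ, t = min (1 / 2) (δ / (2 * (B + 1))) := ⟨_, rfl⟩
  have ht0 : 0 < t := by
    rw [ht]
    exact lt_min (by norm_num) hq
  have ht1 : t < 1 := by
    rw [ht]
    exact (min_le_left _ _).trans_lt (by norm_num)
  have ht2 : B * t < δ := by
    have h15 : t ≤ δ / (2 * (B + 1)) := by
      rw [ht]
      exact min_le_right _ _
    have h16 : B * t ≤ B * (δ / (2 * (B + 1))) := mul_le_mul_of_nonneg_left h15 hB0
    have h17 : (B + 1) * (δ / (2 * (B + 1))) = δ / 2 := by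
      field_simp
    nlinarith
  filter_upwards [main2 t ht0 ht1] with n hn
  rw [dist_zero_right]
  exact hn.trans_lt ht2

end Pool.Agent.H35.UDB
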