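import Pool.Agent.H83.UE.Targets3
import Pool.Agent.H47.UDA.OFF
import Pool.Agent.H11.UDA.CONx
import Pool.Agent.H43.UDA.BD

/-!
MP_75a732_an, board udb_modules, row OFE, first part: estimates on a region.
-/

set_option autoImplicit false

open Polynomial MeasureTheory Filter Topology Set
open scoped OnePoint ComplexConjugate ComplexOrder Laplacian ENNReal

namespace Pool.Agent.H35.UDB

open Pool.Agent.H83.UE Pool.Agent.H47.UDA

theorem ms_cs (s : Multiset ℂ) (f : ℂ → ℝ≥0∞) :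
    (s.map f).sum ^ 2 ≤ (Multiset.card s : ℝ≥0∞) * (s.map fun x => f x ^ 2).sum := by
  induction s using Quotient.inductionOn with
  | h l =>
    simp only [Multiset.quot_mk_to_coe, Multiset.map_coe, Multiset.sum_coe, Multiset.coe_card]
    rw [← Fin.sum_univ_fun_getElem, ← Fin.sum_univ_fun_getElem]
    have h := Pool.Agent.H11.UDA.sq_sum (Finset.univ : Finset (Fin l.length)) fun i => f l[i]
    rwa [Finset.card_univ, Fintype.card_fin] at h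

section

variable {d : ℕ}

theorem fac_le_nfac (g : RatMap d) (n : ℕ) (a b : Prop) [Decidable a] [Decidable b]
    (u : ℂ → ℂ) (z : ℂ) : ‖fac g n a b u z‖ₑ ≤ nfac g n a b (fun x => ‖u x‖ₑ) z := by
  unfold fac nfac
  refine (enorm_msum _ _).trans (Multiset.sum_map_le_sum_map _ _ fun x _ => ?_)
  refine (enorm_div_le' _ _).trans (le_of_eq ?_)
  rw [enorm_mul]
  congr 2
  · split_ifs
    · rfl
    · exact enorm_one
  · split_ifs
    · simp [enorm, nnnorm]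
    · simp

theorem fac_sq (h1 : T_IT) (hd : 1 ≤ d) (g : RatMap d) (n : ℕ) (a b : Prop) [Decidable a]
    [Decidable b] (hab : (a ∧ ¬ b) ∨ (b ∧ ¬ a)) (u : ℂ → ℂ) (z : ℂ) :
    ‖fac g n a b u z‖ₑ ^ 2 ≤
      (d : ℝ≥0∞) ^ n * nfac g n True True (fun x => ‖u x‖ₑ ^ 2) z := by
  refine (pow_le_pow_left' (fac_le_nfac g n a b u z) 2).trans ?_
  unfold nfac
  refine (ms_cs _ _).trans (mul_le_mul' ?_ (le_of_eq ?_))
  · exact_mod_cast card_roots_le h1 hd g n z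
  · congr 1
    refine Multiset.map_congr rfl fun x _ => ?_
    have h : ∀ y w : ℝ≥0∞, (y / w) ^ 2 = y ^ 2 / (w * w) := by
      intro y w
      rw [div_eq_mul_inv, div_eq_mul_inv, mul_pow, ← ENNReal.inv_pow, pow_two w]
    rcases hab with ⟨ha, hb⟩ | ⟨hb, ha⟩
    · rw [if_pos ha, if_neg hb, mul_one, if_pos trivial, h]
    · rw [if_pos hb, if_neg ha, one_mul, if_pos trivial, h]

theorem fac_one (g : RatMap d) (n : ℕ) (a b : Prop) [Decidable a] [Decidable b] (ha : a)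
    (hb : b) (u : ℂ → ℂ) (z : ℂ) :
    ‖fac g n a b u z‖ₑ ≤ nfac g n True True (fun x => ‖u x‖ₑ) z := by
  refine (fac_le_nfac g n a b u z).trans (le_of_eq ?_)
  unfold nfac
  congr 1
  refine Multiset.map_congr rfl fun x _ => ?_
  rw [if_pos ha, if_pos hb, if_pos trivial]

theorem fac_sq_int (h1 : T_IT) (h2 : T_CON) (hd : 1 ≤ d) (g : RatMap d) (n : ℕ) (a b : Prop)
    [Decidable a] [Decidable b] (hab : (a ∧ ¬ b) ∨ (b ∧ ¬ a)) (u : ℂ → ℂ)
    (hu : Measurable u) :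
    ∫⁻ z, ‖fac g n a b u z‖ₑ ^ 2 ≤ (d : ℝ≥0∞) ^ n * ∫⁻ x, ‖u x‖ₑ ^ 2 := by
  refine le_trans (lintegral_mono fun z => pow_le_pow_left' (fac_le_nfac g n a b u z) 2) ?_
  exact Pool.Agent.H43.UDA.nfac_symm h1 h2 hd g n a b hab (fun x => ‖u x‖ₑ) hu.enorm

end

/-! ### The two factors -/

section

variable {k m : ℕ}

/-- one of the two factors in the Cauchy-Schwarz inequality on a region -/
noncomputable def Fq (S : Current k m) (I J : Idx k m) (A : Fin k → ℂ → ℝ≥0∞)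
    (Ω : Set (Fin k → ℂ)) : ℝ≥0∞ :=
  ∫⁻ z in Ω, ((∏ l ∈ I.1 ∩ J.1, A l (z l)) * ∏ l ∈ I.1 \ J.1, A l (z l) ^ 2) *
    ENNReal.ofReal (S.h z I I).re ∂S.σ

theorem Fq_le (h3 : T_MAR) (S : Current k m) (I J : Idx k m) (A A' : Fin k → ℂ → ℝ≥0∞)
    (Ω : Set (Fin k → ℂ)) (hΩ : MeasurableSet Ω) (hA' : ∀ l, Measurable (A' l))
    (hle : ∀ z ∈ Ω, ∀ l, A l (z l) ≤ A' l (z l)) :
    Fq S I J A Ω ≤ S.c I * ((∏ l ∈ I.1 ∩ J.1, ∫⁻ x, A' l x) *
      ∏ l ∈ I.1 \ J.1, ∫⁻ x, A' l x ^ 2) := by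
  classical
  obtain ⟨ρ, hρ⟩ : ∃ ρ : Fin k → ℂ → ℝ≥0∞, ρ = fun l x => if l ∈ J.1 then A' l x
    else A' l x ^ 2 := ⟨_, rfl⟩
  have hρm : ∀ l, Measurable (ρ l) := by
    intro l
    rw [hρ]
    by_cases h : l ∈ J.1
    · simpa [h] using hA' l
    · simpa [h] using (hA' l).pow_const 2
  have hin : ∀ l ∈ I.1 ∩ J.1, ∀ x, ρ l x = A' l x := by
    intro l hl x
    rw [hρ]
    exact if_pos (Finset.mem_inter.1 hl).2
  have hout : ∀ l ∈ I.1 \ J.1, ∀ x, ρ l x = A' l x ^ 2 := by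
    intro l hl x
    rw [hρ]
    exact if_neg (Finset.mem_sdiff.1 hl).2
  have hm := h3 k m S I ρ hρm
  have e1 : ∏ j ∈ I.1, ∫⁻ x, ρ j x = (∏ l ∈ I.1 ∩ J.1, ∫⁻ x, A' l x) *
      ∏ l ∈ I.1 \ J.1, ∫⁻ x, A' l x ^ 2 := by
    rw [← Finset.prod_inter_mul_prod_sdiff I.1 J.1]
    congr 1
    · exact Finset.prod_congr rfl fun l hl => lintegral_congr (hin l hl)
    · exact Finset.prod_congr rfl fun l hl => lintegral_congr (hout l hl)
  have e2 : ∀ z : Fin k → ℂ, ∏ j ∈ I.1, ρ j (z j) = (∏ l ∈ I.1 ∩ J.1, A' l (z l)) *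
      ∏ l ∈ I.1 \ J.1, A' l (z l) ^ 2 := by
    intro z
    rw [← Finset.prod_inter_mul_prod_sdiff I.1 J.1]
    congr 1
    · exact Finset.prod_congr rfl fun l hl => hin l hl _
    · exact Finset.prod_congr rfl fun l hl => hout l hl _
  rw [← e1, ← hm]
  unfold Fq
  refine (setLIntegral_mono' (s := Ω) hΩ (fun z hz => ?_)).trans (setLIntegral_le_lintegral Ω _)
  rw [e2]
  refine mul_le_mul' (mul_le_mul' ?_ ?_) le_rfl
  · exact Finset.prod_le_prod' fun l _ => hle z hz l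
  · exact Finset.prod_le_prod' fun l _ => pow_le_pow_left' (hle z hz l) 2

theorem Fq_full (h3 : T_MAR) (S : Current k m) (I J : Idx k m) (A : Fin k → ℂ → ℝ≥0∞)
    (Ω : Set (Fin k → ℂ)) (hΩ : MeasurableSet Ω) (hA : ∀ l, Measurable (A l)) (τ D : ℝ≥0∞)
    (hc : (S.c I : ℝ≥0∞) ≤ τ) (hin : ∀ l ∈ I.1 ∩ J.1, ∫⁻ x, A l x ≤ τ)
    (hsy : ∀ l ∈ I.1 \ J.1, ∫⁻ x, A l x ^ 2 ≤ D * τ) :
    Fq S I J A Ω ≤ τ ^ (1 + (I.1 ∩ J.1).card + (I.1 \ J.1).card) * D ^ (I.1 \ J.1).card := by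
  refine (Fq_le h3 S I J A A Ω hΩ hA fun z _ l => le_rfl).trans ?_
  have e1 : ∏ l ∈ I.1 ∩ J.1, ∫⁻ x, A l x ≤ τ ^ (I.1 ∩ J.1).card := by
    rw [← Finset.prod_const]
    exact Finset.prod_le_prod' hin
  have e2 : ∏ l ∈ I.1 \ J.1, ∫⁻ x, A l x ^ 2 ≤ (D * τ) ^ (I.1 \ J.1).card := by
    rw [← Finset.prod_const]
    exact Finset.prod_le_prod' hsy
  refine (mul_le_mul' hc (mul_le_mul' e1 e2)).trans (le_of_eq ?_)
  rw [mul_pow]
  ring

theorem Fq_one (h3 : T_MAR) (S : Current k m) (I J : Idx k m) (A : Fin k → ℂ → ℝ≥0∞)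
    (l₀ : Fin k) (hl₀ : l₀ ∈ I.1 \ J.1) (W : Set ℂ) (hW : MeasurableSet W)
    (hA : ∀ l, Measurable (A l)) (τ D q : ℝ≥0∞)
    (hc : (S.c I : ℝ≥0∞) ≤ τ) (hin : ∀ l ∈ I.1 ∩ J.1, ∫⁻ x, A l x ≤ τ)
    (hsy : ∀ l ∈ I.1 \ J.1, ∫⁻ x, A l x ^ 2 ≤ D * τ)
    (hq : ∫⁻ x in W, A l₀ x ^ 2 ≤ D * τ * q) :
    Fq S I J A {z | z l₀ ∈ W} ≤
      τ ^ (1 + (I.1 ∩ J.1).card + (I.1 \ J.1).card) * D ^ (I.1 \ J.1).card * q := by
  classical
  have hΩ : MeasurableSet {z : Fin k → ℂ | z l₀ ∈ W} := measurable_pi_apply l₀ hW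
  obtain ⟨A', hA'⟩ : ∃ A' : Fin k → ℂ → ℝ≥0∞, A' = fun l => if l = l₀ then W.indicator (A l)
    else A l := ⟨_, rfl⟩
  have hA'm : ∀ l, Measurable (A' l) := by
    intro l
    rw [hA']
    by_cases h : l = l₀
    · simp only [h, if_true]
      exact (hA l₀).indicator hW
    · simp only [h, if_false]
      exact hA l
  have hA'0 : ∀ l, l ≠ l₀ → A' l = A l := by
    intro l hl
    rw [hA']
    exact if_neg hl
  have hA'1 : A' l₀ = W.indicator (A l₀) := by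
    rw [hA']
    exact if_pos rfl
  have hle : ∀ z ∈ {z : Fin k → ℂ | z l₀ ∈ W}, ∀ l, A l (z l) ≤ A' l (z l) := by
    intro z hz l
    by_cases h : l = l₀
    · rw [h, hA'1, indicator_of_mem (show z l₀ ∈ W from hz)]
    · rw [hA'0 l h]
  refine (Fq_le h3 S I J A A' _ hΩ hA'm hle).trans ?_
  have e1 : ∏ l ∈ I.1 ∩ J.1, ∫⁻ x, A' l x ≤ τ ^ (I.1 ∩ J.1).card := by
    rw [← Finset.prod_const]
    refine Finset.prod_le_prod' fun l hl => ?_
    rw [hA'0 l ?_]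
    · exact hin l hl
    · rintro rfl
      exact (Finset.mem_sdiff.1 hl₀).2 (Finset.mem_inter.1 hl).2
  have e2 : ∏ l ∈ I.1 \ J.1, ∫⁻ x, A' l x ^ 2 ≤ (D * τ) ^ (I.1 \ J.1).card * q := by
    have e3 : (D * τ) ^ (I.1 \ J.1).card * q =
        ∏ l ∈ I.1 \ J.1, (D * τ * if l = l₀ then q else 1) := by
      rw [Finset.prod_mul_distrib, Finset.prod_const, Finset.prod_ite_eq', if_pos hl₀]
    rw [e3]
    refine Finset.prod_le_prod' fun l hl => ?_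
    by_cases h : l = l₀
    · rw [if_pos h, h, hA'1]
      refine le_trans (le_of_eq ?_) hq
      rw [← lintegral_indicator hW]
      refine lintegral_congr fun x => ?_
      by_cases hx : x ∈ W
      · rw [indicator_of_mem hx, indicator_of_mem hx]
      · rw [indicator_of_notMem hx, indicator_of_notMem hx]
        simp
    · rw [if_neg h, mul_one, hA'0 l h]
      exact hsy l hl
  refine (mul_le_mul' hc (mul_le_mul' e1 e2)).trans (le_of_eq ?_)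
  rw [mul_pow]
  ring

theorem rpow_half_sq (Z : ℝ≥0∞) : (Z ^ 2) ^ (1 / 2 : ℝ) = Z := by
  rw [← ENNReal.rpow_natCast, ← ENNReal.rpow_mul]
  norm_num

/-- the Cauchy-Schwarz inequality on a region in which one of the factors is small -/
theorem region (h9 : T_CSG) (S : Current k m) (I J : Idx k m) (A : Fin k → ℂ → ℝ≥0∞)
    (hA : ∀ l, Measurable (A l)) (b : ℝ≥0∞) (hb : ∀ l x, l ∉ I.1 → l ∉ J.1 → A l x ≤ b)
    (Ω : Set (Fin k → ℂ)) (hΩ : MeasurableSet Ω) (V : ℝ≥0∞) (t : ℝ) (ht : 0 ≤ t)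
    (h : (Fq S I J A Ω ≤ V * ENNReal.ofReal (t ^ 2) ∧ Fq S J I A Ω ≤ V) ∨
      (Fq S I J A Ω ≤ V ∧ Fq S J I A Ω ≤ V * ENNReal.ofReal (t ^ 2))) :
    ∫⁻ z in Ω, (∏ l, A l (z l)) * ‖S.h z I J‖ₑ ∂S.σ ≤
      b ^ ((I.1 ∪ J.1)ᶜ : Finset (Fin k)).card * (V * ENNReal.ofReal t) := by
  have h0 := h9 k m S I J A (fun _ => b) Ω hA hb hΩ
  rw [Finset.prod_const] at h0
  have h1 : ∫⁻ z in Ω, ((∏ l ∈ I.1 ∩ J.1, A l (z l)) * ∏ l ∈ J.1 \ I.1, A l (z l) ^ 2) *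
        ENNReal.ofReal (S.h z J J).re ∂S.σ = Fq S J I A Ω := by
    unfold Fq
    rw [Finset.inter_comm]
  rw [h1, mul_assoc] at h0
  change _ ≤ _ * (Fq S I J A Ω ^ (1 / 2 : ℝ) * Fq S J I A Ω ^ (1 / 2 : ℝ)) at h0
  refine h0.trans (mul_le_mul' le_rfl ?_)
  rw [← ENNReal.mul_rpow_of_nonneg _ _ (by norm_num : (0 : ℝ) ≤ 1 / 2)]
  have h2 : Fq S I J A Ω * Fq S J I A Ω ≤ (V * ENNReal.ofReal t) ^ 2 := by
    have e : (V * ENNReal.ofReal t) ^ 2 = V * ENNReal.ofReal (t ^ 2) * V := by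
      rw [mul_pow, ← ENNReal.ofReal_pow ht]
      ring
    rw [e]
    rcases h with ⟨h, h'⟩ | ⟨h, h'⟩
    · exact mul_le_mul' h h'
    · rw [mul_comm (V * ENNReal.ofReal (t ^ 2))]
      exact mul_le_mul' h h'
  calc (Fq S I J A Ω * Fq S J I A Ω) ^ (1 / 2 : ℝ)
      ≤ ((V * ENNReal.ofReal t) ^ 2) ^ (1 / 2 : ℝ) :=
        ENNReal.rpow_le_rpow h2 (by norm_num)
    _ = _ := rpow_half_sq _

end

/-! ### Measurability -/

theorem meas_om (E : Finset (OnePoint ℂ)) : Measurable (om E) := by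
  unfold om omh
  refine Finset.measurable_fun_prod _ fun e _ => ?_
  unfold cd wd
  have h1 : Measurable fun z : ℂ => ‖((z, 1) : ℂ × ℂ).1 * (vec e).2 -
      ((z, 1) : ℂ × ℂ).2 * (vec e).1‖ := by
    refine Measurable.norm ?_
    have h3 : Measurable fun z : ℂ => z * (vec e).2 := measurable_id.mul_const (vec e).2
    exact h3.sub_const (1 * (vec e).1)
  have h2 : Measurable fun z : ℂ => ‖((z, 1) : ℂ × ℂ)‖ * ‖vec e‖ :=
    (measurable_id.prodMk measurable_const).norm.mul_const _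
  exact h1.div h2

theorem meas_zone {k : ℕ} (E : Fin k → Finset (OnePoint ℂ)) (A : Finset (Fin k)) (a b : ℝ) :
    MeasurableSet (Zone E A a b) := by
  have h : Zone E A a b = (⋂ l ∈ A, {z | om (E l) (z l) ≤ Real.exp (-a)}) ∩
      ⋂ l, ⋂ (_ : l ∉ A), {z : Fin k → ℂ | Real.exp (-b) ≤ om (E l) (z l)} := by
    ext z
    simp [Zone]
  rw [h]
  refine MeasurableSet.inter ?_ ?_
  · refine MeasurableSet.biInter (Finset.countable_toSet A) fun l _ => ?_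
    exact measurableSet_le ((meas_om (E l)).comp (measurable_pi_apply l)) measurable_const
  · refine MeasurableSet.iInter fun l => MeasurableSet.iInter fun _ => ?_
    exact measurableSet_le measurable_const ((meas_om (E l)).comp (measurable_pi_apply l))

end Pool.Agent.H35.UDB
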